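import Pool.Agent.VM5.Stmts

/-! SIG: the numerators. -/

set_option autoImplicit false

namespace Pool.Agent.VM5.H91

open Pool.Agent.VM (Nr)

/-- the numerator `σ = b Δ - z u` -/
theorem sig_aux (t η : ℝ) (b Δ z : ℤ) (u : ℕ) (hu : 0 < u) (h : |t * (Δ : ℝ) - (z : ℝ)| ≤ η) :
    (u : ℤ) ∣ b * Δ - (b * Δ - z * (u : ℤ)) ∧
      |(t - (b : ℝ) / (u : ℝ)) * (Δ : ℝ) + ((b * Δ - z * (u : ℤ) : ℤ) : ℝ) / (u : ℝ)| ≤ η ∧
      |((b * Δ - z * (u : ℤ) : ℤ) : ℝ)| ≤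
        |t - (b : ℝ) / (u : ℝ)| * (u : ℝ) * |(Δ : ℝ)| + (u : ℝ) * η := by
  have hu0 : (0 : ℝ) < u := by exact_mod_cast hu
  have e1 : (t - (b : ℝ) / (u : ℝ)) * (Δ : ℝ) + ((b * Δ - z * (u : ℤ) : ℤ) : ℝ) / (u : ℝ) =
      t * (Δ : ℝ) - (z : ℝ) := by
    push_cast
    field_simp
    ring
  refine ⟨⟨z, by ring⟩, by rw [e1]; exact h, ?_⟩
  have e2 : ((b * Δ - z * (u : ℤ) : ℤ) : ℝ) =
      (u : ℝ) * (t * (Δ : ℝ) - (z : ℝ)) - (t - (b : ℝ) / (u : ℝ)) * (u : ℝ) * (Δ : ℝ) := by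
    push_cast
    field_simp
    ring
  rw [e2]
  calc |(u : ℝ) * (t * (Δ : ℝ) - (z : ℝ)) - (t - (b : ℝ) / (u : ℝ)) * (u : ℝ) * (Δ : ℝ)| ≤
        |(u : ℝ) * (t * (Δ : ℝ) - (z : ℝ))| +
          |(t - (b : ℝ) / (u : ℝ)) * (u : ℝ) * (Δ : ℝ)| := abs_sub _ _
    _ ≤ _ := by
        rw [abs_mul, abs_mul, abs_mul, abs_of_pos hu0]
        have : (u : ℝ) * |t * (Δ : ℝ) - (z : ℝ)| ≤ (u : ℝ) * η :=
          mul_le_mul_of_nonneg_left h hu0.le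
        linarith

/-- the size of the first term: `Δ ≤ A N ^ (5 - i) D ^ i` -/
theorem size_aux (β u N D K A Δ : ℝ) (i j : ℕ) (hij : j + i = 5) (hβ : 0 ≤ β) (hu : 0 ≤ u)
    (hK : 0 < K) (hD : 0 ≤ D) (hN : 0 ≤ N) (h4 : 4 * D * K ≤ N) (hA : 0 ≤ A)
    (hΔ : Δ ≤ A * N ^ j * D ^ i) :
    β * u * Δ ≤ (A / 4 ^ i) * (β * u * N ^ 5) / K ^ i := by
  rw [le_div_iff₀ (by positivity)]
  have h1 : (4 * D * K) ^ i ≤ N ^ i := pow_le_pow_left₀ (by positivity) h4 i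
  have h2 : N ^ 5 = N ^ j * N ^ i := by rw [← pow_add, hij]
  have h3 : β * u * Δ * K ^ i ≤ β * u * (A * N ^ j * D ^ i) * K ^ i := by gcongr
  refine h3.trans ?_
  have h4' : β * u * (A * N ^ j * D ^ i) * K ^ i =
      (A / 4 ^ i) * (β * u * N ^ j) * (4 * D * K) ^ i := by
    rw [mul_pow, mul_pow]
    field_simp
  rw [h4', h2]
  calc (A / 4 ^ i) * (β * u * N ^ j) * (4 * D * K) ^ i ≤
      (A / 4 ^ i) * (β * u * N ^ j) * N ^ i := by gcongr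
    _ = _ := by ring

theorem mem_P2 {N : ℕ} {S : Finset ℕ} {p : ℕ × ℕ × ℤ} (hp : p ∈ P2 N S) :
    1 ≤ p.1 ∧ p.1 ≤ N ∧ p.2.1 ∈ S ∧ |p.2.2| ≤ (N : ℤ) := by
  unfold P2 at hp
  simp only [Finset.mem_product, Finset.mem_Icc] at hp
  exact ⟨hp.1.1, hp.1.2, hp.2.1, abs_le.mpr hp.2.2⟩

/-- sizes of the coefficients -/
theorem coef_size {N D : ℕ} {S : Finset ℕ} (hS : ∀ d ∈ S, d ≤ 2 * D) {p : ℕ × ℕ × ℤ}
    (hp : p ∈ P2 N S) :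
    (0 ≤ (m4 p : ℝ) ∧ (m4 p : ℝ) ≤ 80 * (N : ℝ) ^ 1 * (D : ℝ) ^ 4) ∧
    |(m3 p : ℝ)| ≤ 240 * (N : ℝ) ^ 2 * (D : ℝ) ^ 3 ∧
    |(m2 p : ℝ)| ≤ 280 * (N : ℝ) ^ 3 * (D : ℝ) ^ 2 := by
  obtain ⟨h1, h2, h3, h4⟩ := mem_P2 hp
  have hd := hS _ h3
  have h2' : (p.1 : ℝ) ≤ N := by exact_mod_cast h2
  have hd' : (p.2.1 : ℝ) ≤ 2 * D := by exact_mod_cast hd
  have h4' : |(p.2.2 : ℝ)| ≤ N := by exact_mod_cast h4
  have hh0 : (0 : ℝ) ≤ p.1 := Nat.cast_nonneg _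
  have hd0 : (0 : ℝ) ≤ p.2.1 := Nat.cast_nonneg _
  have hN0 : (0 : ℝ) ≤ N := Nat.cast_nonneg _
  have hD0 : (0 : ℝ) ≤ D := Nat.cast_nonneg _
  refine ⟨⟨?_, ?_⟩, ?_, ?_⟩
  · simp only [m4]
    push_cast
    positivity
  · simp only [m4]
    push_cast
    calc 5 * (p.1 : ℝ) * (p.2.1 : ℝ) ^ 4 ≤ 5 * (N : ℝ) * (2 * (D : ℝ)) ^ 4 := by gcongr
      _ = _ := by ring
  · simp only [m3, Z2]
    push_cast
    have hZ : |2 * (p.2.2 : ℝ) + (p.1 : ℝ)| ≤ 3 * (N : ℝ) := by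
      have := abs_add_le (2 * (p.2.2 : ℝ)) (p.1 : ℝ)
      rw [abs_mul, abs_of_nonneg hh0, abs_of_nonneg (by norm_num : (0 : ℝ) ≤ 2)] at this
      linarith
    rw [abs_mul, abs_of_nonneg (by positivity : (0 : ℝ) ≤ 10 * (p.1 : ℝ) * (p.2.1 : ℝ) ^ 3)]
    calc 10 * (p.1 : ℝ) * (p.2.1 : ℝ) ^ 3 * |2 * (p.2.2 : ℝ) + (p.1 : ℝ)| ≤
        10 * (N : ℝ) * (2 * (D : ℝ)) ^ 3 * (3 * (N : ℝ)) := by gcongr
      _ = _ := by ring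
  · simp only [m2]
    push_cast
    have hZ : |3 * (p.2.2 : ℝ) ^ 2 + 3 * (p.2.2 : ℝ) * (p.1 : ℝ) + (p.1 : ℝ) ^ 2| ≤
        7 * (N : ℝ) ^ 2 := by
      have a1 : |3 * (p.2.2 : ℝ) ^ 2| ≤ 3 * (N : ℝ) ^ 2 := by
        rw [abs_mul, abs_pow, abs_of_nonneg (by norm_num : (0 : ℝ) ≤ 3)]
        gcongr
      have a2 : |3 * (p.2.2 : ℝ) * (p.1 : ℝ)| ≤ 3 * (N : ℝ) ^ 2 := by
        rw [abs_mul, abs_mul, abs_of_nonneg (by norm_num : (0 : ℝ) ≤ 3), abs_of_nonneg hh0]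
        calc 3 * |(p.2.2 : ℝ)| * (p.1 : ℝ) ≤ 3 * (N : ℝ) * (N : ℝ) := by gcongr
          _ = _ := by ring
      have a3 : |(p.1 : ℝ) ^ 2| ≤ (N : ℝ) ^ 2 := by
        rw [abs_pow, abs_of_nonneg hh0]
        gcongr
      calc _ ≤ |3 * (p.2.2 : ℝ) ^ 2 + 3 * (p.2.2 : ℝ) * (p.1 : ℝ)| + |(p.1 : ℝ) ^ 2| :=
            abs_add_le _ _
        _ ≤ |3 * (p.2.2 : ℝ) ^ 2| + |3 * (p.2.2 : ℝ) * (p.1 : ℝ)| + |(p.1 : ℝ) ^ 2| := by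
            gcongr
            exact abs_add_le _ _
        _ ≤ _ := by linarith
    rw [abs_mul, abs_of_nonneg (by positivity : (0 : ℝ) ≤ 10 * (p.1 : ℝ) * (p.2.1 : ℝ) ^ 2)]
    calc 10 * (p.1 : ℝ) * (p.2.1 : ℝ) ^ 2 *
          |3 * (p.2.2 : ℝ) ^ 2 + 3 * (p.2.2 : ℝ) * (p.1 : ℝ) + (p.1 : ℝ) ^ 2| ≤
        10 * (N : ℝ) * (2 * (D : ℝ)) ^ 2 * (7 * (N : ℝ) ^ 2) := by gcongr
      _ = _ := by ring

theorem sig : SigStmt := by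
  refine ⟨72, by norm_num, ?_⟩
  intro N D K u t b S hpar p hp p' hp' hcl
  obtain ⟨hDK, hN5, hD10, hND2, hNK, hDN, hDK2, hDu, hgcd, hW4, hW3, hS⟩ := hpar
  have hS' : ∀ d ∈ S, d ≤ 2 * D := fun d hd => (hS d hd).2.1
  have hN1 : 1 ≤ N := by
    obtain ⟨h1, h2, _⟩ := mem_P2 hp
    exact h1.trans h2
  have hK1 : 0 < K := by
    rcases Nat.eq_zero_or_pos K with h | h
    · rw [h] at hN5
      simp at hN5
      omega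
    · exact h
  have hu0 : 0 < u := by omega
  have huR : (0 : ℝ) < u := by exact_mod_cast hu0
  have hKR : (0 : ℝ) < K := by exact_mod_cast hK1
  have hNR : (0 : ℝ) ≤ N := Nat.cast_nonneg _
  have hDR : (0 : ℝ) ≤ D := Nat.cast_nonneg _
  have hDKR : 4 * (D : ℝ) * (K : ℝ) ≤ N := by exact_mod_cast hDK
  set β := |t - (b : ℝ) / (u : ℝ)| with hβ
  have hβ0 : 0 ≤ β := abs_nonneg _
  set W := WW N u t b with hW
  have hWu : (u : ℝ) ≤ W := le_max_left _ _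
  have hWB : β * (u : ℝ) * (N : ℝ) ^ 5 ≤ W := le_max_right _ _
  have hW0 : 0 < W := lt_of_lt_of_le huR hWu
  obtain ⟨⟨c4n, c4⟩, c3, c2⟩ := coef_size hS' hp
  obtain ⟨⟨c4n', c4'⟩, c3', c2'⟩ := coef_size hS' hp'
  have hc3 := hcl 3
  have hc2 := hcl 2
  have hc1 := hcl 1
  have e3 : (((3 : Fin 4) : ℕ) : ℕ) + 1 = 4 := rfl
  have e2 : (((2 : Fin 4) : ℕ) : ℕ) + 1 = 3 := rfl
  have e1 : (((1 : Fin 4) : ℕ) : ℕ) + 1 = 2 := rfl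
  rw [e3] at hc3
  rw [e2] at hc2
  rw [e1] at hc1
  refine ⟨?_, ?_, ?_⟩
  · -- the highest coordinate
    obtain ⟨z, hz⟩ := hc3
    have hz' : |t * ((m4 p - m4 p' : ℤ) : ℝ) - (z : ℝ)| ≤ 1 / (K : ℝ) ^ 4 := by
      have : t * ((m4 p - m4 p' : ℤ) : ℝ) = t * (co2 3 p : ℝ) - t * (co2 3 p' : ℝ) := by
        have q1 : co2 3 p = m4 p := rfl
        have q2 : co2 3 p' = m4 p' := rfl
        rw [q1, q2]
        push_cast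
        ring
      rw [this]
      exact hz
    obtain ⟨hd, hcl1, hsz⟩ := sig_aux t (1 / (K : ℝ) ^ 4) b (m4 p - m4 p') z u hu0 hz'
    rw [← hβ] at hsz
    have hΔ : |((m4 p - m4 p' : ℤ) : ℝ)| ≤ 80 * (N : ℝ) ^ 1 * (D : ℝ) ^ 4 := by
      push_cast
      rw [abs_le]
      constructor <;> linarith
    have hs := size_aux β u N D K 80 _ 4 1 rfl hβ0 huR.le hKR hDR hNR hDKR (by norm_num) hΔ
    have hσ : |((b * (m4 p - m4 p') - z * (u : ℤ) : ℤ) : ℝ)| < 1 := by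
      refine lt_of_le_of_lt hsz ?_
      have h5 : (80 / 4 ^ 4 : ℝ) * (β * (u : ℝ) * (N : ℝ) ^ 5) / (K : ℝ) ^ 4 ≤
          (80 / 4 ^ 4 : ℝ) * W / (K : ℝ) ^ 4 := by gcongr
      have h6 : (u : ℝ) * (1 / (K : ℝ) ^ 4) ≤ W / (K : ℝ) ^ 4 := by
        rw [mul_one_div]
        gcongr
      have h7 : W / (K : ℝ) ^ 4 ≤ 1 / 1000000 := by
        rw [div_le_div_iff₀ (by positivity) (by norm_num)]
        linarith
      have h8 : (80 / 4 ^ 4 : ℝ) * W / (K : ℝ) ^ 4 = (80 / 4 ^ 4 : ℝ) * (W / (K : ℝ) ^ 4) := by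
        ring
      rw [h8] at h5
      have h9 : (80 / 4 ^ 4 : ℝ) * (W / (K : ℝ) ^ 4) ≤ (80 / 4 ^ 4 : ℝ) * (1 / 1000000) := by
        gcongr
      linarith
    have hσ0 : b * (m4 p - m4 p') - z * (u : ℤ) = 0 := by
      have h1 : |(b * (m4 p - m4 p') - z * (u : ℤ))| < 1 := by exact_mod_cast hσ
      exact Int.abs_lt_one_iff.mp h1
    rw [hσ0] at hcl1 hd
    constructor
    · rw [sub_zero] at hd
      have hco : IsCoprime (u : ℤ) b := by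
        rw [Int.isCoprime_iff_gcd_eq_one, Int.gcd_comm]
        exact hgcd
      exact hco.dvd_of_dvd_mul_left hd
    · have : (t - (b : ℝ) / (u : ℝ)) * ((m4 p : ℝ) - (m4 p' : ℝ)) =
          (t - (b : ℝ) / (u : ℝ)) * ((m4 p - m4 p' : ℤ) : ℝ) + ((0 : ℤ) : ℝ) / (u : ℝ) := by
        push_cast
        ring
      rw [this]
      exact hcl1
  · obtain ⟨z, hz⟩ := hc2
    have hz' : |t * ((m3 p - m3 p' : ℤ) : ℝ) - (z : ℝ)| ≤ 1 / (K : ℝ) ^ 3 := by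
      have : t * ((m3 p - m3 p' : ℤ) : ℝ) = t * (co2 2 p : ℝ) - t * (co2 2 p' : ℝ) := by
        have q1 : co2 2 p = m3 p := rfl
        have q2 : co2 2 p' = m3 p' := rfl
        rw [q1, q2]
        push_cast
        ring
      rw [this]
      exact hz
    obtain ⟨hd, hcl1, hsz⟩ := sig_aux t (1 / (K : ℝ) ^ 3) b (m3 p - m3 p') z u hu0 hz'
    rw [← hβ] at hsz
    refine ⟨_, hd, ?_, ?_⟩
    · have hΔ : |((m3 p - m3 p' : ℤ) : ℝ)| ≤ 480 * (N : ℝ) ^ 2 * (D : ℝ) ^ 3 := by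
        push_cast
        have := abs_sub (m3 p : ℝ) (m3 p' : ℝ)
        linarith
      have hs := size_aux β u N D K 480 _ 3 2 rfl hβ0 huR.le hKR hDR hNR hDKR (by norm_num) hΔ
      have h5 : (480 / 4 ^ 3 : ℝ) * (β * (u : ℝ) * (N : ℝ) ^ 5) / (K : ℝ) ^ 3 ≤
          (480 / 4 ^ 3 : ℝ) * W / (K : ℝ) ^ 3 := by gcongr
      have h6 : (u : ℝ) * (1 / (K : ℝ) ^ 3) ≤ W / (K : ℝ) ^ 3 := by
        rw [mul_one_div]
        gcongr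
      have h8 : (480 / 4 ^ 3 : ℝ) * W / (K : ℝ) ^ 3 = (480 / 4 ^ 3 : ℝ) * (W / (K : ℝ) ^ 3) := by
        ring
      have h9 : 0 ≤ W / (K : ℝ) ^ 3 := by positivity
      have h10 : 72 * W / (K : ℝ) ^ 3 = 72 * (W / (K : ℝ) ^ 3) := by ring
      rw [h8] at h5
      rw [h10]
      norm_num at h5
      linarith
    · have : (t - (b : ℝ) / (u : ℝ)) * ((m3 p : ℝ) - (m3 p' : ℝ)) =
          (t - (b : ℝ) / (u : ℝ)) * ((m3 p - m3 p' : ℤ) : ℝ) := by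
        push_cast
        ring
      rw [this]
      exact hcl1
  · obtain ⟨z, hz⟩ := hc1
    have hz' : |t * ((2 * m2 p - 2 * m2 p' : ℤ) : ℝ) - ((2 * z : ℤ) : ℝ)| ≤
        2 / (K : ℝ) ^ 2 := by
      have : t * ((2 * m2 p - 2 * m2 p' : ℤ) : ℝ) - ((2 * z : ℤ) : ℝ) =
          2 * (t * (co2 1 p : ℝ) - t * (co2 1 p' : ℝ) - (z : ℝ)) := by
        have q1 : co2 1 p = m2 p := rfl
        have q2 : co2 1 p' = m2 p' := rfl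
        rw [q1, q2]
        push_cast
        ring
      rw [this, abs_mul, abs_of_nonneg (by norm_num : (0 : ℝ) ≤ 2)]
      have h2 : 2 / (K : ℝ) ^ 2 = 2 * (1 / (K : ℝ) ^ 2) := by ring
      rw [h2]
      exact mul_le_mul_of_nonneg_left hz (by norm_num)
    obtain ⟨hd, _, hsz⟩ := sig_aux t (2 / (K : ℝ) ^ 2) b (2 * m2 p - 2 * m2 p') (2 * z) u hu0 hz'
    rw [← hβ] at hsz
    refine ⟨_, hd, ?_⟩
    have hΔ : |((2 * m2 p - 2 * m2 p' : ℤ) : ℝ)| ≤ 1120 * (N : ℝ) ^ 3 * (D : ℝ) ^ 2 := by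
      push_cast
      have := abs_sub (2 * (m2 p : ℝ)) (2 * (m2 p' : ℝ))
      rw [abs_mul, abs_mul, abs_of_nonneg (by norm_num : (0 : ℝ) ≤ 2)] at this
      linarith
    have hs := size_aux β u N D K 1120 _ 2 3 rfl hβ0 huR.le hKR hDR hNR hDKR (by norm_num) hΔ
    have h5 : (1120 / 4 ^ 2 : ℝ) * (β * (u : ℝ) * (N : ℝ) ^ 5) / (K : ℝ) ^ 2 ≤
        (1120 / 4 ^ 2 : ℝ) * W / (K : ℝ) ^ 2 := by gcongr
    have h6 : (u : ℝ) * (2 / (K : ℝ) ^ 2) ≤ 2 * (W / (K : ℝ) ^ 2) := by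
      have : (u : ℝ) * (2 / (K : ℝ) ^ 2) = 2 * ((u : ℝ) / (K : ℝ) ^ 2) := by ring
      rw [this]
      gcongr
    have h8 : (1120 / 4 ^ 2 : ℝ) * W / (K : ℝ) ^ 2 = (1120 / 4 ^ 2 : ℝ) * (W / (K : ℝ) ^ 2) := by
      ring
    have h9 : 0 ≤ W / (K : ℝ) ^ 2 := by positivity
    have h10 : 72 * W / (K : ℝ) ^ 2 = 72 * (W / (K : ℝ) ^ 2) := by ring
    rw [h8] at h5
    rw [h10]
    norm_num at h5
    linarith

end Pool.Agent.VM5.H91
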