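import Pool.Agent.VM5.Stmts
import Pool.Agent.Helper98_VM5.Kit

/-! EG3: the energy of the good points. -/

set_option autoImplicit false

namespace Pool.Agent.VM5.H91

open Pool.Agent.VM (Nr)
open Pool.Agent.VM5.Kit

/-- the factorizations of a nonzero integer are finitely many -/
theorem fact_finite (m : ℤ) (hm : m ≠ 0) :
    {x : ℤ × ℤ × ℤ × ℤ | x.1 * x.2.1 * x.2.2.1 * x.2.2.2 = m}.Finite := by
  refine Set.Finite.subset ((Finset.Icc (-|m|) |m| ×ˢ Finset.Icc (-|m|) |m| ×ˢ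
    Finset.Icc (-|m|) |m| ×ˢ Finset.Icc (-|m|) |m| : Finset (ℤ × ℤ × ℤ × ℤ)).finite_toSet) ?_
  rintro ⟨a, b, c, d⟩ hx
  have hx' : a * b * c * d = m := hx
  have key : ∀ y : ℤ, y ∣ m → y ∈ Finset.Icc (-|m|) |m| := by
    intro y hy
    rw [Finset.mem_Icc, ← abs_le]
    exact Int.le_of_dvd (abs_pos.mpr hm) ((abs_dvd _ _).mpr ((dvd_abs _ _).mpr hy))
  simp only [Finset.coe_product, Set.mem_prod, Finset.mem_coe]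
  refine ⟨key a ?_, key b ?_, key c ?_, key d ?_⟩
  · exact ⟨b * c * d, by rw [← hx']; ring⟩
  · exact ⟨a * c * d, by rw [← hx']; ring⟩
  · exact ⟨a * b * d, by rw [← hx']; ring⟩
  · exact ⟨a * b * c, by rw [← hx']; ring⟩

theorem mem_P3 {N : ℕ} {S : Finset ℕ} {p : ℕ × ℕ × ℕ × ℤ} (hp : p ∈ P3 N S) :
    1 ≤ p.1 ∧ p.1 ≤ N ∧ 1 ≤ p.2.1 ∧ p.2.1 ≤ N ∧ p.2.2.1 ∈ S := by
  unfold P3 at hp
  simp only [Finset.mem_product, Finset.mem_Icc] at hp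
  exact ⟨hp.1.1, hp.1.2, hp.2.1.1, hp.2.1.2, hp.2.2.1⟩

theorem mem_P3g {N : ℕ} {S : Finset ℕ} {p : ℕ × ℕ × ℕ × ℤ} (hp : p ∈ P3g N S) :
    p ∈ P3 N S := (Finset.mem_filter.mp hp).1

theorem card_P3 (N D : ℕ) (S : Finset ℕ) (hN : 1 ≤ N) (hS : ∀ d ∈ S, D < d ∧ d ≤ 2 * D) :
    ((P3 N S).card : ℝ) ≤ 3 * (N : ℝ) ^ 3 * (D : ℝ) := by
  unfold P3
  rw [Finset.card_product, Finset.card_product, Finset.card_product, Nat.card_Icc,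
    Int.card_Icc]
  have h1 : S.card ≤ D := by
    have : S ⊆ Finset.Ioc D (2 * D) := fun d hd => Finset.mem_Ioc.mpr (hS d hd)
    have h2 := Finset.card_le_card this
    rw [Nat.card_Ioc] at h2
    omega
  have h3 : ((N : ℤ) + 1 - (-(N : ℤ))).toNat ≤ 3 * N := by omega
  have h4 : N + 1 - 1 = N := by omega
  rw [h4]
  calc ((N * (N * (S.card * ((N : ℤ) + 1 - (-(N : ℤ))).toNat)) : ℕ) : ℝ) ≤
      ((N * (N * (D * (3 * N))) : ℕ) : ℝ) := by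
        exact_mod_cast Nat.mul_le_mul_left _ (Nat.mul_le_mul_left _ (Nat.mul_le_mul h1 h3))
    _ = _ := by push_cast; ring

theorem eg3 (ey3 : Ey3Stmt) (gd3 : Gd3Stmt) (en3 : En3Stmt) (dvb : DvbStmt) : Eg3Stmt := by
  intro ε hε
  obtain ⟨C₁, hC₁, h1⟩ := ey3 ε hε
  obtain ⟨C₂, hC₂, h2⟩ := en3 ε hε
  obtain ⟨C₃, hC₃, h3⟩ := dvb (ε / 2) (by linarith)
  refine ⟨C₁ + C₂ + 3 * C₃, by positivity, ?_⟩
  intro N D K U G t b S hpar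
  have b1 := h1 N D K U G t b S hpar
  have b2 := h2 N D K U G t b S hpar
  obtain ⟨hDK, hN5, hD10, hD8, hDK', hG1, hGD, hU1, hU2, hU, hgcd, ht, hS⟩ := hpar
  have hN1 : 1 ≤ N := by
    have : 1 ≤ D ^ 8 := Nat.one_le_pow _ _ (by omega)
    omega
  have hNR : (1 : ℝ) ≤ N := by exact_mod_cast hN1
  have hDR : (0 : ℝ) ≤ D := Nat.cast_nonneg _
  have hfin : ∀ Q : (ℕ × ℕ × ℕ × ℤ) × (ℕ × ℕ × ℕ × ℤ) → Prop,
      (∀ v, Q v → v.1 ∈ P3 N S ∧ v.2 ∈ P3 N S) → {v | Q v}.Finite := by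
    intro Q hQ
    refine Set.Finite.subset ((P3 N S ×ˢ P3 N S).finite_toSet) ?_
    intro v hv
    have h := hQ v hv
    simp only [Finset.coe_product, Set.mem_prod, Finset.mem_coe]
    exact h
  -- the third part
  have b3 : (Nat.card {v : (ℕ × ℕ × ℕ × ℤ) × (ℕ × ℕ × ℕ × ℤ) // v.1 ∈ P3g N S ∧
      v.2 ∈ P3g N S ∧ v.1.2.2.1 = v.2.2.2.1 ∧ Z3 v.1 = Z3 v.2 ∧ V3 v.1 = V3 v.2} : ℝ) ≤
      3 * C₃ * (N : ℝ) ^ (3 + ε) * (D : ℝ) * G := by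
    have hm : ∀ y ∈ P3 N S, (Nat.card {v : (ℕ × ℕ × ℕ × ℤ) × (ℕ × ℕ × ℕ × ℤ) //
        (v.1 ∈ P3g N S ∧ v.2 ∈ P3g N S ∧ v.1.2.2.1 = v.2.2.2.1 ∧ Z3 v.1 = Z3 v.2 ∧
          V3 v.1 = V3 v.2) ∧ v.1 = y} : ℝ) ≤ C₃ * (N : ℝ) ^ ε := by
      intro y hy
      obtain ⟨y1, y2, y3, y4, y5⟩ := mem_P3 hy
      have hV0 : 0 < V3 y := by
        unfold V3
        have a1 : (1 : ℤ) ≤ y.1 := by exact_mod_cast y1
        have a2 : (1 : ℤ) ≤ y.2.1 := by exact_mod_cast y3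
        nlinarith
      have hV : |(V3 y : ℝ)| ≤ (N : ℝ) ^ 2 := by
        have h0 : (0 : ℝ) < (V3 y : ℝ) := by exact_mod_cast hV0
        rw [abs_of_pos h0]
        unfold V3
        push_cast
        have a1 : (y.1 : ℝ) ≤ N := by exact_mod_cast y2
        have a2 : (y.2.1 : ℝ) ≤ N := by exact_mod_cast y4
        calc (y.1 : ℝ) * (y.2.1 : ℝ) ≤ (N : ℝ) * (N : ℝ) := by gcongr
          _ = _ := by ring
      have hc := h3 (V3 y) hV0.ne'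
      have hle : Nat.card {v : (ℕ × ℕ × ℕ × ℤ) × (ℕ × ℕ × ℕ × ℤ) //
          (v.1 ∈ P3g N S ∧ v.2 ∈ P3g N S ∧ v.1.2.2.1 = v.2.2.2.1 ∧ Z3 v.1 = Z3 v.2 ∧
            V3 v.1 = V3 v.2) ∧ v.1 = y} ≤
          Nat.card {x : ℤ × ℤ × ℤ × ℤ // x.1 * x.2.1 * x.2.2.1 * x.2.2.2 = V3 y} := by
        refine card_inj_le (fun v => ((v.2.1 : ℤ), (v.2.2.1 : ℤ), 1, 1))
          (fact_finite _ hV0.ne') ?_ ?_
        · rintro v ⟨⟨_, _, _, _, hv⟩, rfl⟩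
          show (v.2.1 : ℤ) * (v.2.2.1 : ℤ) * 1 * 1 = V3 v.1
          rw [hv]
          unfold V3
          ring
        · rintro ⟨v1, v2⟩ ⟨w1, w2⟩ ⟨⟨_, _, hv3, hv4, _⟩, hv6⟩ ⟨⟨_, _, hw3, hw4, _⟩, hw6⟩ hvw
          have hv6' : v1 = y := hv6
          have hw6' : w1 = y := hw6
          subst hv6'
          subst hw6'
          simp only [Prod.mk.injEq, Nat.cast_inj, and_true] at hvw
          obtain ⟨e1, e2⟩ := hvw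
          have e3 : v2.2.2.1 = w2.2.2.1 := hv3.symm.trans hw3
          have e4 : Z3 v2 = Z3 w2 := hv4.symm.trans hw4
          have e5 : v2.2.2.2 = w2.2.2.2 := by
            unfold Z3 at e4
            rw [e1, e2] at e4
            omega
          have e6 : v2 = w2 := Prod.ext e1 (Prod.ext e2 (Prod.ext e3 e5))
          rw [e6]
      calc _ ≤ (Nat.card {x : ℤ × ℤ × ℤ × ℤ // x.1 * x.2.1 * x.2.2.1 * x.2.2.2 = V3 y} : ℝ) := by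
            exact_mod_cast hle
        _ ≤ C₃ * |(V3 y : ℝ)| ^ (ε / 2) := hc
        _ ≤ C₃ * ((N : ℝ) ^ 2) ^ (ε / 2) := by
            refine mul_le_mul_of_nonneg_left ?_ hC₃.le
            exact Real.rpow_le_rpow (abs_nonneg _) hV (by linarith)
        _ = C₃ * (N : ℝ) ^ ε := by
            congr 1
            rw [← Real.rpow_natCast, ← Real.rpow_mul (by linarith)]
            congr 1
            push_cast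
            ring
    have hc := card_fib_le (P := fun v : (ℕ × ℕ × ℕ × ℤ) × (ℕ × ℕ × ℕ × ℤ) =>
        v.1 ∈ P3g N S ∧ v.2 ∈ P3g N S ∧ v.1.2.2.1 = v.2.2.2.1 ∧ Z3 v.1 = Z3 v.2 ∧
          V3 v.1 = V3 v.2) (hfin _ fun v hv => ⟨mem_P3g hv.1, mem_P3g hv.2.1⟩) Prod.fst
        (P3 N S) (C₃ * (N : ℝ) ^ ε) (fun v hv => mem_P3g hv.1) hm
    refine hc.trans ?_
    have hcard := card_P3 N D S hN1 (fun d hd => ⟨(hS d hd).1, (hS d hd).2.1⟩)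
    have hpow : (N : ℝ) ^ (3 + ε) = (N : ℝ) ^ 3 * (N : ℝ) ^ ε := by
      rw [Real.rpow_add (by linarith)]
      congr 1
      exact_mod_cast Real.rpow_natCast (N : ℝ) 3
    have hNe : (0 : ℝ) ≤ (N : ℝ) ^ ε := Real.rpow_nonneg (by linarith) _
    calc ((P3 N S).card : ℝ) * (C₃ * (N : ℝ) ^ ε) ≤
        (3 * (N : ℝ) ^ 3 * (D : ℝ)) * (C₃ * (N : ℝ) ^ ε) := by gcongr
      _ = 3 * C₃ * (N : ℝ) ^ (3 + ε) * (D : ℝ) * 1 := by rw [hpow]; ring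
      _ ≤ _ := by
          refine mul_le_mul_of_nonneg_left hG1 ?_
          rw [hpow]
          positivity
  have hor := card_or_le (P := fun v : (ℕ × ℕ × ℕ × ℤ) × (ℕ × ℕ × ℕ × ℤ) =>
      v.1 ∈ P3g N S ∧ v.2 ∈ P3g N S ∧ Close3 K t v)
    (Q := fun v => v.1 ∈ P3 N S ∧ v.2 ∈ P3 N S ∧
        Close3 K t v ∧ (v.2.2.2.1 : ℤ) * Z3 v.1 ≠ (v.1.2.2.1 : ℤ) * Z3 v.2)
    (R := fun v => (v.1 ∈ P3g N S ∧ v.2 ∈ P3g N S ∧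
        Close3 K t v ∧ v.1.2.2.1 = v.2.2.2.1 ∧ Z3 v.1 = Z3 v.2 ∧ V3 v.1 ≠ V3 v.2) ∨
        (v.1 ∈ P3g N S ∧ v.2 ∈ P3g N S ∧ v.1.2.2.1 = v.2.2.2.1 ∧ Z3 v.1 = Z3 v.2 ∧
          V3 v.1 = V3 v.2))
    (hfin _ fun v hv => ⟨hv.1, hv.2.1⟩)
    (hfin _ fun v hv => by
      rcases hv with hv | hv
      · exact ⟨mem_P3g hv.1, mem_P3g hv.2.1⟩
      · exact ⟨mem_P3g hv.1, mem_P3g hv.2.1⟩)
    (fun v hv => by
      by_cases hY : (v.2.2.2.1 : ℤ) * Z3 v.1 = (v.1.2.2.1 : ℤ) * Z3 v.2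
      · right
        obtain ⟨e1, e2⟩ := gd3 N D S hD10 hS v.1 hv.1 v.2 hv.2.1 hY
        by_cases hV : V3 v.1 = V3 v.2
        · exact Or.inr ⟨hv.1, hv.2.1, e1, e2, hV⟩
        · exact Or.inl ⟨hv.1, hv.2.1, hv.2.2, e1, e2, hV⟩
      · exact Or.inl ⟨mem_P3g hv.1, mem_P3g hv.2.1, hv.2.2, hY⟩)
  have hor2 := card_or_le (P := fun v : (ℕ × ℕ × ℕ × ℤ) × (ℕ × ℕ × ℕ × ℤ) =>
      (v.1 ∈ P3g N S ∧ v.2 ∈ P3g N S ∧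
        Close3 K t v ∧ v.1.2.2.1 = v.2.2.2.1 ∧ Z3 v.1 = Z3 v.2 ∧ V3 v.1 ≠ V3 v.2) ∨
        (v.1 ∈ P3g N S ∧ v.2 ∈ P3g N S ∧ v.1.2.2.1 = v.2.2.2.1 ∧ Z3 v.1 = Z3 v.2 ∧
          V3 v.1 = V3 v.2))
    (hfin (fun v => v.1 ∈ P3g N S ∧ v.2 ∈ P3g N S ∧
        Close3 K t v ∧ v.1.2.2.1 = v.2.2.2.1 ∧ Z3 v.1 = Z3 v.2 ∧ V3 v.1 ≠ V3 v.2)
      fun v hv => ⟨mem_P3g hv.1, mem_P3g hv.2.1⟩)
    (hfin (fun v => v.1 ∈ P3g N S ∧ v.2 ∈ P3g N S ∧ v.1.2.2.1 = v.2.2.2.1 ∧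
        Z3 v.1 = Z3 v.2 ∧ V3 v.1 = V3 v.2)
      fun v hv => ⟨mem_P3g hv.1, mem_P3g hv.2.1⟩)
    (fun v hv => hv)
  have hR : (Nat.card {v : (ℕ × ℕ × ℕ × ℤ) × (ℕ × ℕ × ℕ × ℤ) // v.1 ∈ P3g N S ∧
      v.2 ∈ P3g N S ∧ Close3 K t v} : ℝ) ≤
      (Nat.card {v : (ℕ × ℕ × ℕ × ℤ) × (ℕ × ℕ × ℕ × ℤ) // v.1 ∈ P3 N S ∧ v.2 ∈ P3 N S ∧
        Close3 K t v ∧ (v.2.2.2.1 : ℤ) * Z3 v.1 ≠ (v.1.2.2.1 : ℤ) * Z3 v.2} : ℝ) +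
      ((Nat.card {v : (ℕ × ℕ × ℕ × ℤ) × (ℕ × ℕ × ℕ × ℤ) // v.1 ∈ P3g N S ∧ v.2 ∈ P3g N S ∧
        Close3 K t v ∧ v.1.2.2.1 = v.2.2.2.1 ∧ Z3 v.1 = Z3 v.2 ∧ V3 v.1 ≠ V3 v.2} : ℝ) +
      (Nat.card {v : (ℕ × ℕ × ℕ × ℤ) × (ℕ × ℕ × ℕ × ℤ) // v.1 ∈ P3g N S ∧
      v.2 ∈ P3g N S ∧ v.1.2.2.1 = v.2.2.2.1 ∧ Z3 v.1 = Z3 v.2 ∧ V3 v.1 = V3 v.2} : ℝ)) := by
    exact_mod_cast hor.trans (Nat.add_le_add_left hor2 _)
  calc _ ≤ _ := hR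
    _ ≤ C₁ * (N : ℝ) ^ (3 + ε) * (D : ℝ) * G + (C₂ * (N : ℝ) ^ (3 + ε) * (D : ℝ) * G +
        3 * C₃ * (N : ℝ) ^ (3 + ε) * (D : ℝ) * G) := add_le_add b1 (add_le_add b2 b3)
    _ = _ := by ring

end Pool.Agent.VM5.H91
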